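import Mathlib

/-! Definable sets in an o-minimal structure on the real line: fat pieces of finite covers. -/

namespace Pool.Agent.P.MP_ff4c85_gt.TM

open Set FirstOrder Filter Topology Metric

universe u v

variable {L : FirstOrder.Language.{u, v}} [L.Structure ℝ]

/-- Definable predicates. -/
abbrev Df (L : FirstOrder.Language.{u, v}) [L.Structure ℝ] {α : Type} (p : (α → ℝ) → Prop) : Prop :=
  (univ : Set ℝ).Definable L {v | p v}

/-- The hypotheses on the structure. -/
structure OM (L : FirstOrder.Language.{u, v}) [L.Structure ℝ] : Prop where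
  lt : (univ : Set ℝ).Definable₂ L {p : ℝ × ℝ | p.1 < p.2}
  fin : ∀ S : Set ℝ, (univ : Set ℝ).Definable₁ L S → (frontier S).Finite

theorem Df.and {α : Type} {p q : (α → ℝ) → Prop} (hp : Df L p) (hq : Df L q) :
    Df L fun v => p v ∧ q v := Definable.inter hp hq

theorem Df.not {α : Type} {p : (α → ℝ) → Prop} (hp : Df L p) : Df L fun v => ¬ p v :=
  Definable.compl hp

theorem Df.imp {α : Type} {p q : (α → ℝ) → Prop} (hp : Df L p) (hq : Df L q) :
    Df L fun v => p v → q v := by
  have := (hp.and hq.not).not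
  simpa only [not_and, not_not] using this

theorem Df.all {α ι : Type} [Finite ι] {p : ι → (α → ℝ) → Prop} (hp : ∀ i, Df L (p i)) :
    Df L fun v => ∀ i, p i v := by
  have := definable_iInter_of_finite hp
  rwa [← ofPred_forall] at this

theorem Df.ex {α β : Type} [Finite β] {q : (α → ℝ) → (β → ℝ) → Prop}
    (h : Df L fun w : α ⊕ β → ℝ => q (w ∘ Sum.inl) (w ∘ Sum.inr)) :
    Df L fun v => ∃ u, q v u := Definable.exists_of_finite h

theorem Df.fa {α β : Type} [Finite β] {q : (α → ℝ) → (β → ℝ) → Prop}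
    (h : Df L fun w : α ⊕ β → ℝ => q (w ∘ Sum.inl) (w ∘ Sum.inr)) :
    Df L fun v => ∀ u, q v u := Definable.forall_of_finite h

theorem Df.fa1 {α : Type} {q : (α → ℝ) → ℝ → Prop}
    (h : Df L fun w : α ⊕ Unit → ℝ => q (w ∘ Sum.inl) (w (Sum.inr ()))) :
    Df L fun v => ∀ t, q v t := by
  have := Df.fa (q := fun v (u : Unit → ℝ) => q v (u ())) h
  convert this using 2 with v
  exact ⟨fun h u => h _, fun h t => h fun _ => t⟩

theorem Df.ex1 {α : Type} {q : (α → ℝ) → ℝ → Prop}
    (h : Df L fun w : α ⊕ Unit → ℝ => q (w ∘ Sum.inl) (w (Sum.inr ()))) :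
    Df L fun v => ∃ t, q v t := by
  have := Df.ex (q := fun v (u : Unit → ℝ) => q v (u ())) h
  convert this using 2 with v
  exact ⟨fun ⟨t, h⟩ => ⟨fun _ => t, h⟩, fun ⟨u, h⟩ => ⟨_, h⟩⟩

theorem OM.dlt (H : OM L) {α : Type} {f g : (α → ℝ) → ℝ}
    (hf : (univ : Set ℝ).DefinableFun L f) (hg : (univ : Set ℝ).DefinableFun L g) :
    Df L fun v => f v < g v := by
  have hF : (univ : Set ℝ).DefinableMap L (fun v => ![f v, g v]) := by
    simp [DefinableMap, *]
  exact Definable.preimage_map hF H.lt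

theorem dp {α : Type} {i : α} : (univ : Set ℝ).DefinableFun L fun v : α → ℝ => v i :=
  DefinableFun.proj L

theorem dconst {α : Type} (a : ℝ) : (univ : Set ℝ).DefinableFun L fun _ : α → ℝ => a :=
  L.definableFun_const α (mem_univ a)

theorem dcons {α : Type} {k : ℕ} {S : Set (Fin (k + 1) → ℝ)} (hS : (univ : Set ℝ).Definable L S)
    {f : (α → ℝ) → ℝ} {g : (α → ℝ) → Fin k → ℝ} (hf : (univ : Set ℝ).DefinableFun L f)
    (hg : (univ : Set ℝ).DefinableMap L g) : Df L fun v => Fin.cons (f v) (g v) ∈ S :=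
  hS.preimage_map (F := fun v => Fin.cons (f v) (g v)) fun i => by
    refine Fin.cases ?_ (fun j => ?_) i
    · simpa using hf
    · simpa using hg j

theorem OM.fibre (H : OM L) {k : ℕ} {S : Set (Fin (k + 1) → ℝ)}
    (hS : (univ : Set ℝ).Definable L S) (x : Fin k → ℝ) :
    (frontier {t : ℝ | Fin.cons t x ∈ S}).Finite :=
  H.fin _ (dcons hS dp fun i => dconst (x i))

theorem mem_int {k : ℕ} {S : Set (Fin (k + 1) → ℝ)} {U : Set ℝ} {V : Set (Fin k → ℝ)}
    (hU : IsOpen U) (hV : IsOpen V) (h : ∀ t ∈ U, ∀ x ∈ V, Fin.cons t x ∈ S) {t : ℝ} (ht : t ∈ U)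
    {x : Fin k → ℝ} (hx : x ∈ V) : Fin.cons t x ∈ interior S := by
  refine mem_interior.2 ⟨{y | y 0 ∈ U ∧ Fin.tail y ∈ V}, fun y hy => ?_, ?_, by simpa using ⟨ht, hx⟩⟩
  · simpa using h _ hy.1 _ hy.2
  · exact (hU.preimage (continuous_apply 0)).inter
      (hV.preimage (continuous_pi fun i => continuous_apply _))

/-- A countable union of definable sets with empty interior has empty interior. -/
theorem OM.small (H : OM L) (k : ℕ) : ∀ {ι : Type} [Countable ι] (A : ι → Set (Fin k → ℝ)),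
    (∀ m, (univ : Set ℝ).Definable L (A m)) → (∀ m, interior (A m) = ∅) →
    interior (⋃ m, A m) = ∅ := by
  induction k with
  | zero =>
    intro ι _ A _ h
    simp only [interior_eq_iff_isOpen.2 (isOpen_discrete _)] at h ⊢
    simp [h]
  | succ k ih =>
    intro ι _ A hA h
    refine eq_empty_of_forall_notMem fun x hx => ?_
    obtain ⟨ε, ε0, hε⟩ := Metric.mem_nhds_iff.1 (mem_interior_iff_mem_nhds.1 hx)
    let A' : ι × ℚ × ℚ → Set (Fin k → ℝ) := fun p =>
      {y | p.2.1 < p.2.2 ∧ ∀ t : ℝ, p.2.1 < t → t < p.2.2 → Fin.cons t y ∈ A p.1}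
    have h1 := ih A' (fun p => ?_) fun p => ?_
    · have : ball (Fin.tail x) ε ⊆ ⋃ p, A' p := fun y hy => by
        have hc : (⋃ m, frontier {t : ℝ | Fin.cons t y ∈ A m}).Countable :=
          countable_iUnion fun m => (H.fibre (hA m) y).countable
        obtain ⟨t, t1, t2⟩ := (hc.dense_compl ℝ).inter_open_nonempty _ isOpen_ball
          ⟨x 0, mem_ball_self ε0⟩
        have t3 : (Fin.cons t y : Fin (k + 1) → ℝ) ∈ ball x ε := by
          rw [mem_ball, dist_pi_lt_iff ε0]
          refine Fin.cases t1 fun j => (dist_pi_lt_iff ε0).1 hy j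
        obtain ⟨m, hm⟩ := mem_iUnion.1 (hε t3)
        have t4 : t ∈ interior {t : ℝ | Fin.cons t y ∈ A m} := by
          by_contra hn
          exact t2 (mem_iUnion.2 ⟨m, subset_closure hm, hn⟩)
        obtain ⟨a, b, ⟨ha, hb⟩, hab⟩ := mem_nhds_iff_exists_Ioo_subset.1
          (mem_interior_iff_mem_nhds.1 t4)
        obtain ⟨q, q1, q2⟩ := exists_rat_btwn ha
        obtain ⟨r, r1, r2⟩ := exists_rat_btwn hb
        exact mem_iUnion.2 ⟨(m, q, r), by exact_mod_cast q2.trans r1,
          fun s s1 s2 => hab ⟨q1.trans s1, s2.trans r2⟩⟩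
      have h2 := interior_maximal this isOpen_ball (mem_ball_self ε0)
      rwa [h1] at h2
    · by_cases hp : p.2.1 < p.2.2
      · simp only [A', hp, true_and]
        exact Df.fa1 ((H.dlt (dconst _) dp).imp
          ((H.dlt dp (dconst _)).imp
            (dcons (hA _) dp fun i => dp)))
      · simp [A', hp]
    · refine eq_empty_of_forall_notMem fun y hy => ?_
      have hp : (p.2.1 : ℝ) < p.2.2 := by exact_mod_cast (interior_subset hy).1
      obtain ⟨t, ht⟩ := nonempty_Ioo.2 hp
      have := mem_int (S := A p.1) isOpen_Ioo isOpen_interior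
        (fun s hs z hz => (interior_subset hz).2 s hs.1 hs.2) ht hy
      rwa [h] at this

theorem mem_int_iff {α : Type} [Fintype α] {S : Set (α → ℝ)} {x : α → ℝ} :
    x ∈ interior S ↔ ∃ a b : α → ℝ, (∀ i, a i < x i ∧ x i < b i) ∧
      ∀ y, (∀ i, a i < y i ∧ y i < b i) → y ∈ S := by
  constructor
  · intro hx
    obtain ⟨ε, ε0, hε⟩ := Metric.mem_nhds_iff.1 (mem_interior_iff_mem_nhds.1 hx)
    refine ⟨fun i => x i - ε, fun i => x i + ε, fun i => ⟨by linarith, by linarith⟩,
      fun y hy => hε ?_⟩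
    rw [mem_ball, dist_pi_lt_iff ε0]
    intro i
    rw [Real.dist_eq, abs_lt]
    constructor <;> linarith [(hy i).1, (hy i).2]
  · rintro ⟨a, b, h1, h2⟩
    exact mem_interior.2 ⟨univ.pi fun i => Ioo (a i) (b i), fun y hy => h2 y fun i => hy i trivial,
      isOpen_set_pi finite_univ fun _ _ => isOpen_Ioo, fun i _ => h1 i⟩

/-- The union of the interiors of a definable family is definable. -/
theorem OM.good (H : OM L) {α : Type} [Fintype α] {P : ℝ → Set (α → ℝ)}
    (hP : Df L fun w : α ⊕ Unit → ℝ => w ∘ Sum.inl ∈ P (w (Sum.inr ()))) :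
    (univ : Set ℝ).Definable L (⋃ c, interior (P c)) := by
  have : Df L fun x : α → ℝ => ∃ c, ∃ a b : α → ℝ, (∀ i, a i < x i ∧ x i < b i) ∧
      ∀ y, (∀ i, a i < y i ∧ y i < b i) → y ∈ P c := by
    refine Df.ex1 (Df.ex (Df.ex (Df.and (Df.all fun i => Df.and
      (H.dlt dp dp) (H.dlt dp dp))
      (Df.fa (Df.imp (Df.all fun i => Df.and
      (H.dlt dp dp) (H.dlt dp dp))
      ?_)))))
    exact Definable.preimage_comp (β := (((α ⊕ Unit) ⊕ α) ⊕ α) ⊕ α)
      (Sum.elim Sum.inr fun _ => .inl (.inl (.inl (.inr ())))) hP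
  convert this using 1
  ext x
  simp only [mem_iUnion, mem_int_iff, mem_ofPred_eq]

theorem dslice {α : Type} [Finite α] {P : ℝ → Set (α → ℝ)}
    (hP : Df L fun w : α ⊕ Unit → ℝ => w ∘ Sum.inl ∈ P (w (Sum.inr ()))) (c : ℝ) :
    (univ : Set ℝ).Definable L (P c) :=
  Definable.preimage_map (F := fun v : α → ℝ => Sum.elim v fun _ => c)
    (fun i => by
      rcases i with i | i
      · exact dp
      · exact dconst c) hP

/-- A set covered by rational members of finitely many families, off the good sets, is small. -/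
theorem OM.rest (H : OM L) {k : ℕ} {ι : Type} [Finite ι] {P : ι → ℝ → Set (Fin k → ℝ)}
    (hP : ∀ j, Df L fun w : Fin k ⊕ Unit → ℝ => w ∘ Sum.inl ∈ P j (w (Sum.inr ())))
    {N : Set (Fin k → ℝ)} (h1 : ∀ x ∈ N, ∃ j, ∃ c : ℚ, x ∈ P j c)
    (h2 : ∀ x ∈ N, ∀ j, x ∉ ⋃ c, interior (P j c)) : interior N = ∅ := by
  have := H.small k (fun p : ι × ℚ => P p.1 p.2 \ ⋃ c, interior (P p.1 c))
    (fun p => (dslice (hP p.1) _).sdiff (H.good (hP p.1))) fun p =>
      eq_empty_of_forall_notMem fun x hx =>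
        (interior_subset hx).2 (mem_iUnion.2 ⟨_, interior_mono sdiff_subset hx⟩)
  refine subset_empty_iff.1 (this ▸ interior_mono fun x hx => ?_)
  obtain ⟨j, c, hc⟩ := h1 x hx
  exact mem_iUnion.2 ⟨(j, c), hc, h2 x hx j⟩

theorem ev_or {S : Set ℝ} (h : (frontier S).Finite) :
    (∀ᶠ t in atTop, t ∈ S) ∨ ∀ᶠ t in atTop, t ∉ S := by
  obtain ⟨M, hM⟩ := h.bddAbove
  have := (isPreconnected_Ioi (a := M)).subset_or_subset (u := interior S) (v := interior Sᶜ)
    isOpen_interior isOpen_interior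
    (disjoint_compl_right.mono interior_subset interior_subset) (by
      rw [← compl_frontier_eq_union_interior]
      exact fun t ht hf => not_le.2 ht (hM hf))
  exact this.imp (fun h => (eventually_gt_atTop M).mono fun t ht => interior_subset (h ht))
    fun h => (eventually_gt_atTop M).mono fun t ht => interior_subset (h ht)

/-- In a finite definable cover some piece contains arbitrarily large cubes. -/
theorem OM.fat (H : OM L) (k : ℕ) : ∀ {ι : Type} [Finite ι] (S : ι → Set (Fin k → ℝ)),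
    (∀ j, (univ : Set ℝ).Definable L (S j)) → (∀ x, ∃ j, x ∈ S j) →
    ∃ j, ∀ r, ∃ c, closedBall c r ⊆ S j := by
  induction k with
  | zero =>
    intro ι _ S _ h
    obtain ⟨j, hj⟩ := h 0
    exact ⟨j, fun r => ⟨0, fun y _ => Subsingleton.elim 0 y ▸ hj⟩⟩
  | succ k ih =>
    intro ι _ S hS h
    let P : ι → ℝ → Set (Fin k → ℝ) := fun j m => {y | ∀ t, m < t → Fin.cons t y ∈ S j}
    have hP : ∀ j, Df L fun w : Fin k ⊕ Unit → ℝ => w ∘ Sum.inl ∈ P j (w (Sum.inr ())) :=
      fun j => Df.fa1 ((H.dlt dp dp).imp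
        (dcons (hS _) dp fun i => dp))
    let G : ι → Set (Fin k → ℝ) := fun j => ⋃ c, interior (P j c)
    obtain ⟨j, hj⟩ := ih (fun o : Option ι => o.elim (⋃ j, G j)ᶜ G) (fun o => by
      rcases o with _ | j
      · exact (definable_iUnion_of_finite fun j => H.good (hP j)).compl
      · exact H.good (hP j)) fun x => by
      by_cases hx : x ∈ ⋃ j, G j
      · obtain ⟨j, hj⟩ := mem_iUnion.1 hx
        exact ⟨some j, hj⟩
      · exact ⟨none, hx⟩
    rcases j with _ | j
    · have h0 := H.rest hP (N := (⋃ j, G j)ᶜ) (fun x _ => ?_)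
        fun x hx j hj => hx (mem_iUnion.2 ⟨j, hj⟩)
      · obtain ⟨c, hc⟩ := hj 1
        have := interior_maximal (ball_subset_closedBall.trans hc) isOpen_ball
          (mem_ball_self one_pos)
        simp only [Option.elim, h0] at this
        exact this.elim
      · by_contra hn
        have : ∀ᶠ t in atTop, ∀ j, Fin.cons t x ∉ S j := eventually_all.2 fun j =>
          (ev_or (H.fibre (hS j) x)).resolve_left fun he => by
            obtain ⟨m, hm⟩ := eventually_atTop.1 he
            obtain ⟨q, hq⟩ := exists_rat_gt m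
            exact hn ⟨j, q, fun t ht => hm t (hq.trans ht).le⟩
        obtain ⟨t, ht⟩ := this.exists
        obtain ⟨j, hj⟩ := h (Fin.cons t x)
        exact ht j hj
    · refine ⟨j, fun r => ?_⟩
      obtain ⟨c, hc⟩ := hj |r|
      obtain ⟨m, hm⟩ := (isCompact_closedBall c |r|).elim_directed_cover
        (fun m => interior (P j m)) (fun _ => isOpen_interior) hc
        (Monotone.directed_le fun a b hab => interior_mono fun y hy t ht => hy t (hab.trans_lt ht))
      refine ⟨Fin.cons (m + |r| + 1) c, fun y hy => ?_⟩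
      have hy' := (dist_pi_le_iff (abs_nonneg r)).1 (hy.trans (le_abs_self r))
      have h0 := hy' 0
      rw [Fin.cons_zero, Real.dist_eq, abs_le] at h0
      have := interior_subset (hm (a := Fin.tail y)
        ((dist_pi_le_iff (abs_nonneg r)).2 fun i => hy' i.succ)) (y 0) (by linarith [h0.1])
      rwa [Fin.cons_self_tail] at this

/-- A bounded orbit does not stay in a compact set on which a coordinate jumps locally. -/
theorem no_jump {X : Type} [TopologicalSpace X] {T : X → X} {f : X → ℝ} {K : Set X}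
    (hK : IsCompact K) {x : X} (hx : ∀ k, T^[k] x ∈ K)
    (h : K ⊆ ⋃ c, interior {y | f y < c ∧ c < f (T y)}) : False := by
  have mono : StrictMono fun k => f (T^[k] x) := strictMono_nat_of_lt_succ fun k => by
    obtain ⟨c, hc⟩ := mem_iUnion.1 (h (hx k))
    rw [Function.iterate_succ_apply']
    exact (interior_subset hc).1.trans (interior_subset hc).2
  obtain ⟨p, hp, hc⟩ := hK.exists_mapClusterPt_of_frequently (l := atTop)
    (f := fun k => T^[k] x) (Frequently.of_forall hx)
  obtain ⟨c, hc'⟩ := mem_iUnion.1 (h hp)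
  have hf := hc.frequently (mem_interior_iff_mem_nhds.1 hc')
  obtain ⟨k, hk⟩ := hf.exists
  obtain ⟨l, hl, h2⟩ := frequently_atTop.1 hf (k + 1)
  have := mono.monotone hl
  simp only [Function.iterate_succ_apply'] at this
  linarith [hk.2, h2.1]

theorem OM.main (H : OM L) {n : ℕ} {T : (Fin n → ℝ) → Fin n → ℝ}
    (hT : (univ : Set ℝ).DefinableMap L T) {B : ℝ} (hB : ∀ x k, dist (T^[k] x) x ≤ B) (r : ℝ) :
    ∃ c, ∀ x ∈ closedBall c r, T x = x := by
  let P : Fin n × Bool → ℝ → Set (Fin n → ℝ) := fun j c =>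
    {y | if j.2 then y j.1 < c ∧ c < T y j.1 else T y j.1 < c ∧ c < y j.1}
  have hT' (i : Fin n) : (univ : Set ℝ).DefinableFun L
      fun w : Fin n ⊕ Unit → ℝ => T (w ∘ Sum.inl) i :=
    DefinableFun.comp (g := fun w : Fin n ⊕ Unit → ℝ => w ∘ Sum.inl)
      (fun _ => dp) (hT i)
  have hP : ∀ j, Df L fun w : Fin n ⊕ Unit → ℝ => w ∘ Sum.inl ∈ P j (w (Sum.inr ())) := by
    rintro ⟨i, _ | _⟩
    · exact (H.dlt (hT' i) dp).and (H.dlt dp dp)
    · exact (H.dlt dp dp).and (H.dlt dp (hT' i))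
  let G : Fin n × Bool → Set (Fin n → ℝ) := fun j => ⋃ c, interior (P j c)
  have hF : (univ : Set ℝ).Definable L {x | T x = x} := by
    have := Df.all fun i => (hT i).ofPred_eq (DefinableFun.proj L (i := i))
    simpa only [funext_iff] using this
  obtain ⟨j, hj⟩ := H.fat n (fun o : Option (Option (Fin n × Bool)) =>
    o.elim {x | T x = x} fun o => o.elim ((⋃ j, G j)ᶜ \ {x | T x = x}) G) (fun o => by
      rcases o with _ | _ | j
      · exact hF
      · exact (definable_iUnion_of_finite fun j => H.good (hP j)).compl.sdiff hF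
      · exact H.good (hP j)) fun x => by
      by_cases hx : x ∈ ⋃ j, G j
      · obtain ⟨j, hj⟩ := mem_iUnion.1 hx
        exact ⟨some (some j), hj⟩
      · by_cases h2 : T x = x
        · exact ⟨none, h2⟩
        · exact ⟨some none, hx, h2⟩
  rcases j with _ | _ | ⟨i, _ | _⟩
  · exact hj r
  · have h0 := H.rest hP (N := (⋃ j, G j)ᶜ \ {x | T x = x}) (fun x hx => ?_)
      fun x hx j hj => hx.1 (mem_iUnion.2 ⟨j, hj⟩)
    · obtain ⟨c, hc⟩ := hj 1
      have := interior_maximal (ball_subset_closedBall.trans hc) isOpen_ball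
        (mem_ball_self one_pos)
      simp only [Option.elim, h0] at this
      exact this.elim
    · obtain ⟨i, hi⟩ := Function.ne_iff.1 hx.2
      rcases lt_or_gt_of_ne hi with h | h
      · obtain ⟨q, hq⟩ := exists_rat_btwn h
        exact ⟨(i, false), q, hq⟩
      · obtain ⟨q, hq⟩ := exists_rat_btwn h
        exact ⟨(i, true), q, hq⟩
  · obtain ⟨c, hc⟩ := hj B
    refine (no_jump (f := fun y : Fin n → ℝ => -y i) (isCompact_closedBall c B) (hB c)
      fun y hy => ?_).elim
    obtain ⟨e, he⟩ := mem_iUnion.1 (hc hy)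
    refine mem_iUnion.2 ⟨-e, interior_mono (fun z hz => ?_) he⟩
    exact ⟨neg_lt_neg hz.2, neg_lt_neg hz.1⟩
  · obtain ⟨c, hc⟩ := hj B
    exact (no_jump (f := fun y : Fin n → ℝ => y i) (isCompact_closedBall c B) (hB c) hc).elim

end Pool.Agent.P.MP_ff4c85_gt.TM
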